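import Pool.Agent.U607.QgFam

set_option autoImplicit false

/-!
# The families `(2 q n) ^ 2 + 1` and `((2 n + 1) q) ^ 2 + 4`, uniformly in the prime `q`
-/

namespace Pool.Agent.Results.MP_6e51af_nt.AlmostPrimesUniformInQ

open Finset Filter
open Pool.Agent.U607

/-- The values of the first family. -/
def valA (q n : ℕ) : ℕ := (2 * q * n) ^ 2 + 1

/-- The values of the second family. -/
def valB (q n : ℕ) : ℕ := ((2 * n + 1) * q) ^ 2 + 4

/-- `m` has at most `r` prime factors (counted with multiplicity), all of them at least `z`. -/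
def AlmostPrime (r : ℕ) (z : ℝ) (m : ℕ) : Prop :=
  m.primeFactorsList.length ≤ r ∧ ∀ p : ℕ, p.Prime → p ∣ m → z ≤ p

open Classical in
/-- The number of the `n` in `(x, x + H]` such that `f n` is an almost prime. -/
noncomputable def number (f : ℕ → ℕ) (r : ℕ) (z : ℝ) (x H : ℕ) : ℕ :=
  ((Ioc x (x + H)).filter (fun n : ℕ => AlmostPrime r z (f n))).card

open Classical in
/-- The pairs `n < n'` of consecutive elements of `(M, M + Y]` among the `n` such that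
`f n` is an almost prime. -/
noncomputable def consecutive (f : ℕ → ℕ) (r : ℕ) (z : ℝ) (M Y : ℕ) : Finset (ℕ × ℕ) :=
  ((Ioc M (M + Y)) ×ˢ (Ioc M (M + Y))).filter
    (fun s => AlmostPrime r z (f s.1) ∧ AlmostPrime r z (f s.2) ∧ s.1 < s.2 ∧
      ∀ m : ℕ, s.1 < m → m < s.2 → ¬ AlmostPrime r z (f m))

/-- The constants of the weighted sieve: `Λ 5 = 4.74...`, `Λ 6 = 5.73...`. -/
noncomputable def Λ (r : ℕ) : ℝ := 1 + Real.log ((3 ^ r + 1) / 4) / Real.log 3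

theorem ap_eq (F : ℤ → ℤ) (f : ℕ → ℕ) (h : ∀ n : ℕ, (F (n : ℤ)) = (f n : ℤ)) (r : ℕ) (z : ℝ) :
    QG2.AP F r z = fun t => AlmostPrime r z (f t) := by
  funext t
  unfold QG2.AP AlmostPrime
  rw [h t, Int.natAbs_natCast]
  apply propext
  constructor
  · rintro ⟨h1, h2⟩
    exact ⟨h1, fun p hp hd => h2 p hp (by exact_mod_cast hd)⟩
  · rintro ⟨h1, h2⟩
    exact ⟨h1, fun p hp hd => h2 p hp (by exact_mod_cast hd)⟩

theorem gfA (q n : ℕ) : QG2.gf (2 * q) 0 1 (n : ℤ) = ((valA q n : ℕ) : ℤ) := by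
  unfold QG2.gf valA
  push_cast
  ring

theorem gfB (q n : ℕ) : QG2.gf (2 * q) q 4 (n : ℤ) = ((valB q n : ℕ) : ℤ) := by
  unfold QG2.gf valB
  push_cast
  ring

theorem memA (q : ℕ) (hq : q.Prime) : QG2.gf (2 * q) 0 1 ∈ QG2.GF := by
  refine ⟨q, 0, 1, hq, Or.inl rfl, ?_, rfl⟩
  intro p hp hpq n hd
  have hpZ : Prime (p : ℤ) := Nat.prime_iff_prime_int.1 hp
  have h1 : (p : ℤ) ∣ 1 := by
    have h2 : (p : ℤ) ∣ (2 * q * n + 0) ^ 2 := by
      have e : (2 * (q : ℤ) * n + 0) ^ 2 = (2 * q) * (n * (2 * q * n)) := by ring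
      rw [e]
      exact hpq.mul_right _
    have h3 := dvd_sub hd h2
    have e : QG2.gf (2 * q) 0 1 n - (2 * (q : ℤ) * n + 0) ^ 2 = 1 := by
      unfold QG2.gf
      ring
    rwa [e] at h3
  exact hpZ.not_unit (isUnit_of_dvd_one h1)

theorem memB (q : ℕ) (hq : q.Prime) (hq2 : q ≠ 2) : QG2.gf (2 * q) q 4 ∈ QG2.GF := by
  refine ⟨q, q, 4, hq, Or.inr rfl, ?_, rfl⟩
  intro p hp hpq n hd
  have hpZ : Prime (p : ℤ) := Nat.prime_iff_prime_int.1 hp
  by_cases hp2 : p = 2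
  · have hodd : ¬ (2 : ℤ) ∣ (q : ℤ) := by
      intro h
      have h1 : 2 ∣ q := by exact_mod_cast h
      exact hq2 ((Nat.prime_dvd_prime_iff_eq Nat.prime_two hq).1 h1).symm
    rw [hp2] at hd
    unfold QG2.gf at hd
    have h1 : (2 : ℤ) ∣ (q : ℤ) ^ 2 := by
      have h2 : (2 : ℤ) ∣ (2 * (q : ℤ) * n + q) ^ 2 + 4 := by exact_mod_cast hd
      have h3 : (2 : ℤ) ∣ 2 * (2 * (q : ℤ) ^ 2 * n ^ 2 + 2 * q ^ 2 * n + 2) := dvd_mul_right _ _
      have h4 := dvd_sub h2 h3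
      have e : (2 * (q : ℤ) * n + q) ^ 2 + 4 - 2 * (2 * (q : ℤ) ^ 2 * n ^ 2 + 2 * q ^ 2 * n + 2) = q ^ 2 := by
        ring
      rwa [e] at h4
    exact hodd (Int.prime_two.dvd_of_dvd_pow h1)
  · have hpq' : (p : ℤ) ∣ q := by
      rcases hpZ.dvd_or_dvd hpq with h | h
      · exfalso
        have h1 : p ∣ 2 := by exact_mod_cast h
        exact hp2 ((Nat.prime_dvd_prime_iff_eq hp Nat.prime_two).1 h1)
      · exact h
    have h1 : (p : ℤ) ∣ 4 := by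
      have h2 : (p : ℤ) ∣ (2 * q * n + q) ^ 2 := by
        have e : (2 * (q : ℤ) * n + q) ^ 2 = q * ((2 * n + 1) * (2 * q * n + q)) := by ring
        rw [e]
        exact hpq'.mul_right _
      have h3 := dvd_sub hd h2
      have e : QG2.gf (2 * q) q 4 n - (2 * (q : ℤ) * n + q) ^ 2 = 4 := by
        unfold QG2.gf
        ring
      rwa [e] at h3
    have h2 : p ∣ 2 ^ 2 := by exact_mod_cast h1
    exact hp2 ((Nat.prime_dvd_prime_iff_eq hp Nat.prime_two).1 (hp.dvd_of_dvd_pow h2))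

open Classical in
/-- **Theorem.**  Let `k ≥ 2`, `0 < θ ≤ 1` and `θ Λ(r) > 2 k`, for instance `k = 2`, `r = 5` and
`θ ≥ 0.844`, or `k = 4`, `r = 9` and `θ ≥ 0.916`.  There are `w, σ, δ, C > 0` such that for all
large `X`, for EVERY prime `q ≤ X ^ (k / 2 - 1 + σ)`, for `f n = (2 q n) ^ 2 + 1` and, if `q ≠ 2`, for
`f n = ((2 n + 1) q) ^ 2 + 4`, and for all intervals `(M, M + Y]` with `M + Y ≤ X`, `Y ≥ X ^ θ`,
where `P` denotes the set of the `n` for which `f n` has at most `r` prime factors, all at least `X ^ w`: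

1. for all `H₀ ≥ 1`, all but at most `C Y (log X) ^ 12 / H₀` of the `x` in the interval have the
property that for ALL `H` with `H₀ ≤ H ≤ X` the window `(x, x + H]` contains at least
`δ H / log X` elements of `P`;
2. for all `H ≥ 1` at most `C Y (log X) ^ 12 / H ^ 2` gaps between consecutive elements of `P` in the
interval have length at least `H`;
3. the sum of the squares of these gaps is at most `C Y (log X) ^ 13`.

The constants do not depend on `q`. -/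
theorem result (k r : ℕ) (hk : 2 ≤ k) (θ : ℝ) (hθ : 2 * k < θ * Λ r) (hθ0 : 0 < θ) (hθ1 : θ ≤ 1) :
    ∃ w σ δ C : ℝ, 0 < w ∧ 0 < σ ∧ 0 < δ ∧ 0 < C ∧ ∀ᶠ X : ℕ in atTop, ∀ q : ℕ, q.Prime →
      (q : ℝ) ≤ (X : ℝ) ^ ((k : ℝ) / 2 - 1 + σ) →
      ∀ f : ℕ → ℕ, (f = valA q ∨ (q ≠ 2 ∧ f = valB q)) →
      ∀ M Y : ℕ, M + Y ≤ X → (X : ℝ) ^ θ ≤ Y →
      (∀ H₀ : ℝ, 1 ≤ H₀ → (((Ioc M (M + Y)).filter (fun x => ∃ H : ℕ, H₀ ≤ H ∧ H ≤ X ∧
        (number f r ((X : ℝ) ^ w) x H : ℝ) < δ * H / Real.log X)).card : ℝ) ≤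
          C * (Y * Real.log X ^ 12) / H₀) ∧
      (∀ H : ℝ, 1 ≤ H → (((consecutive f r ((X : ℝ) ^ w) M Y).filter
        (fun s => H ≤ ((s.2 - s.1 : ℕ) : ℝ))).card : ℝ) ≤ C * (Y * Real.log X ^ 12) / H ^ 2) ∧
      ((∑ s ∈ consecutive f r ((X : ℝ) ^ w) M Y, (s.2 - s.1) ^ 2 : ℕ) : ℝ) ≤
        C * (Y * Real.log X ^ 13) := by
  obtain ⟨w, σ, δ, C, hw, hσ, hδ, hC, HF⟩ := QG2.finG QG2.GF QG2.fam_GF k (by omega) r θ hθ hθ0 hθ1
  refine ⟨w, σ / 2, δ, C, hw, by positivity, hδ, hC, ?_⟩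
  have ev : ∀ᶠ X : ℕ in atTop, (200 : ℝ) ≤ (X : ℝ) ^ σ :=
    ((tendsto_rpow_atTop hσ).comp tendsto_natCast_atTop_atTop).eventually_ge_atTop _
  filter_upwards [HF, ev, eventually_ge_atTop 3] with X hX hXσ hX3 q hq hqX f hf
  have hXr : (3 : ℝ) ≤ X := by exact_mod_cast hX3
  have hX0 : (0 : ℝ) < X := by linarith
  have hkr : (2 : ℝ) ≤ k := by exact_mod_cast hk
  have hq1 : 1 ≤ q := hq.one_lt.le
  have hqr : (1 : ℝ) ≤ q := by exact_mod_cast hq1
  -- the size of `q X`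
  have hq2 : ((q : ℝ) * X) ^ 2 ≤ (X : ℝ) ^ ((k : ℝ) + σ) := by
    have h1 : (q : ℝ) * X ≤ (X : ℝ) ^ (((k : ℝ) + σ) / 2) := by
      calc (q : ℝ) * X ≤ (X : ℝ) ^ ((k : ℝ) / 2 - 1 + σ / 2) * X ^ (1 : ℝ) := by
            rw [Real.rpow_one]
            exact mul_le_mul_of_nonneg_right hqX hX0.le
        _ = (X : ℝ) ^ (((k : ℝ) + σ) / 2) := by
            rw [← Real.rpow_add hX0]
            congr 1
            ring
    calc ((q : ℝ) * X) ^ 2 ≤ ((X : ℝ) ^ (((k : ℝ) + σ) / 2)) ^ 2 :=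
          pow_le_pow_left₀ (by positivity) h1 2
      _ = (X : ℝ) ^ ((k : ℝ) + σ) := by
          rw [← Real.rpow_natCast, ← Real.rpow_mul hX0.le]
          congr 1
          push_cast
          ring
  have hfin : 200 * ((q : ℝ) * X) ^ 2 ≤ (X : ℝ) ^ ((k : ℝ) * (1 + σ)) := by
    calc 200 * ((q : ℝ) * X) ^ 2 ≤ (X : ℝ) ^ σ * (X : ℝ) ^ ((k : ℝ) + σ) := by
          apply mul_le_mul hXσ hq2 (by positivity) (by positivity)
      _ = (X : ℝ) ^ ((k : ℝ) + 2 * σ) := by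
          rw [← Real.rpow_add hX0]
          congr 1
          ring
      _ ≤ (X : ℝ) ^ ((k : ℝ) * (1 + σ)) := by
          apply Real.rpow_le_rpow_of_exponent_le (by linarith)
          nlinarith
  have hqX1 : 1 ≤ q * X := Nat.one_le_iff_ne_zero.2 (by positivity)
  have hsizeA : ∀ n : ℕ, n ≤ 4 * X → ((valA q n : ℕ) : ℝ) ≤ (X : ℝ) ^ ((k : ℝ) * (1 + σ)) := by
    intro n hn
    refine le_trans ?_ hfin
    have h1 : 2 * q * n ≤ 8 * (q * X) := by
      calc 2 * q * n ≤ 2 * q * (4 * X) := Nat.mul_le_mul_left _ hn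
        _ = 8 * (q * X) := by ring
    have h2 : valA q n ≤ 200 * (q * X) ^ 2 := by
      unfold valA
      have h3 : (2 * q * n) ^ 2 ≤ (8 * (q * X)) ^ 2 := Nat.pow_le_pow_left h1 2
      have h4 : 1 ≤ (q * X) ^ 2 := Nat.one_le_pow _ _ hqX1
      nlinarith
    calc ((valA q n : ℕ) : ℝ) ≤ ((200 * (q * X) ^ 2 : ℕ) : ℝ) := by exact_mod_cast h2
      _ = 200 * ((q : ℝ) * X) ^ 2 := by push_cast; ring
  have hsizeB : ∀ n : ℕ, n ≤ 4 * X → ((valB q n : ℕ) : ℝ) ≤ (X : ℝ) ^ ((k : ℝ) * (1 + σ)) := by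
    intro n hn
    refine le_trans ?_ hfin
    have h1 : (2 * n + 1) * q ≤ 9 * (q * X) := by
      calc (2 * n + 1) * q ≤ (9 * X) * q := Nat.mul_le_mul_right _ (by omega)
        _ = 9 * (q * X) := by ring
    have h2 : valB q n ≤ 200 * (q * X) ^ 2 := by
      unfold valB
      have h3 : ((2 * n + 1) * q) ^ 2 ≤ (9 * (q * X)) ^ 2 := Nat.pow_le_pow_left h1 2
      have h4 : 1 ≤ (q * X) ^ 2 := Nat.one_le_pow _ _ hqX1
      nlinarith
    calc ((valB q n : ℕ) : ℝ) ≤ ((200 * (q * X) ^ 2 : ℕ) : ℝ) := by exact_mod_cast h2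
      _ = 200 * ((q : ℝ) * X) ^ 2 := by push_cast; ring
  have key : ∀ F : ℤ → ℤ, F ∈ QG2.GF → (∀ n : ℕ, F (n : ℤ) = (f n : ℤ)) →
      (∀ n : ℕ, n ≤ 4 * X → ((f n : ℕ) : ℝ) ≤ (X : ℝ) ^ ((k : ℝ) * (1 + σ))) →
      ∀ M Y : ℕ, M + Y ≤ X → (X : ℝ) ^ θ ≤ Y →
      (∀ H₀ : ℝ, 1 ≤ H₀ → (((Ioc M (M + Y)).filter (fun x => ∃ H : ℕ, H₀ ≤ H ∧ H ≤ X ∧
        (number f r ((X : ℝ) ^ w) x H : ℝ) < δ * H / Real.log X)).card : ℝ) ≤
          C * (Y * Real.log X ^ 12) / H₀) ∧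
      (∀ H : ℝ, 1 ≤ H → (((consecutive f r ((X : ℝ) ^ w) M Y).filter
        (fun s => H ≤ ((s.2 - s.1 : ℕ) : ℝ))).card : ℝ) ≤ C * (Y * Real.log X ^ 12) / H ^ 2) ∧
      ((∑ s ∈ consecutive f r ((X : ℝ) ^ w) M Y, (s.2 - s.1) ^ 2 : ℕ) : ℝ) ≤
        C * (Y * Real.log X ^ 13) := by
    intro F hF hFf hsz M Y hMY hY
    have h1 := hX F hF (by
      intro n hn
      rw [hFf n, Int.natAbs_natCast]
      exact hsz n hn) M Y hMY hY
    have e1 := ap_eq F f hFf r ((X : ℝ) ^ w)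
    have e2 : ∀ x H : ℕ, QG2.cnt F r ((X : ℝ) ^ w) x H = number f r ((X : ℝ) ^ w) x H := by
      intro x H
      unfold QG2.cnt number
      congr 1
      apply Finset.filter_congr
      intro t _
      rw [e1]
    have e3 : GM.consec (QG2.AP F r ((X : ℝ) ^ w)) M Y = consecutive f r ((X : ℝ) ^ w) M Y := by
      unfold GM.consec consecutive
      apply Finset.filter_congr
      intro t _
      rw [e1]
    rw [e3] at h1
    simp only [e2] at h1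
    exact h1
  rcases hf with hf | ⟨hq2', hf⟩
  · apply key (QG2.gf (2 * q) 0 1) (memA q hq)
    · intro n
      rw [hf]
      exact gfA q n
    · rw [hf]
      exact hsizeA
  · apply key (QG2.gf (2 * q) q 4) (memB q hq hq2')
    · intro n
      rw [hf]
      exact gfB q n
    · rw [hf]
      exact hsizeB

end Pool.Agent.Results.MP_6e51af_nt.AlmostPrimesUniformInQ
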